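import Pool.Agent.TH198.AT.Stmts

/-!
# AT, part TANH: an elementary inequality
-/

set_option autoImplicit false

namespace Pool.Agent.TH359.AT

open Pool.TH198.AT

theorem hasDerivAt_tanh' (x : ℝ) : HasDerivAt Real.tanh (1 - Real.tanh x ^ 2) x := by
  have h0 : Real.tanh = fun x => Real.sinh x / Real.cosh x := by
    funext y
    exact Real.tanh_eq_sinh_div_cosh y
  have hc : Real.cosh x ≠ 0 := (Real.cosh_pos x).ne'
  have h1 := (Real.hasDerivAt_sinh x).div (Real.hasDerivAt_cosh x) hc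
  have h2 : 1 - Real.tanh x ^ 2 =
      (Real.cosh x * Real.cosh x - Real.sinh x * Real.sinh x) / Real.cosh x ^ 2 := by
    rw [Real.tanh_eq_sinh_div_cosh]
    field_simp
  rw [h2, h0]
  exact h1

theorem tanh_mono : Monotone Real.tanh := by
  refine monotone_of_deriv_nonneg (fun x => (hasDerivAt_tanh' x).differentiableAt) fun x => ?_
  rw [(hasDerivAt_tanh' x).deriv]
  have := Real.tanh_sq_lt_one x
  linarith

theorem tanh_nonneg' {x : ℝ} (hx : 0 ≤ x) : 0 ≤ Real.tanh x := by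
  have := tanh_mono hx
  rwa [Real.tanh_zero] at this

/-- the case `2 ≤ l ^ 2` -/
theorem big (c l x : ℝ) (hl1 : 1 ≤ l) (hl2 : 2 ≤ l ^ 2) (hc : l ^ 2 ≤ 2 + c) (hx : 0 ≤ x) :
    l * Real.tanh (l * x) ≤ 2 * Real.tanh x + c * x := by
  have hd : ∀ y : ℝ, HasDerivAt (fun y => 2 * Real.tanh y + c * y - l * Real.tanh (l * y))
      (2 * (1 - Real.tanh y ^ 2) + c * 1 - l * ((1 - Real.tanh (l * y) ^ 2) * (l * 1))) y := by
    intro y
    have e1 : HasDerivAt (fun y : ℝ => l * y) (l * 1) y := (hasDerivAt_id y).const_mul l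
    have e2 : HasDerivAt (fun y : ℝ => c * y) (c * 1) y := (hasDerivAt_id y).const_mul c
    have e3 : HasDerivAt (fun y : ℝ => Real.tanh (l * y))
        ((1 - Real.tanh (l * y) ^ 2) * (l * 1)) y := (hasDerivAt_tanh' (l * y)).comp y e1
    exact (((hasDerivAt_tanh' y).const_mul 2).add e2).sub (e3.const_mul l)
  have hm : MonotoneOn (fun y => 2 * Real.tanh y + c * y - l * Real.tanh (l * y)) (Set.Ici 0) := by
    refine monotoneOn_of_deriv_nonneg (convex_Ici 0)
      (fun y _ => (hd y).continuousAt.continuousWithinAt)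
      (fun y _ => (hd y).differentiableAt.differentiableWithinAt) ?_
    intro y hy
    rw [interior_Ici, Set.mem_Ioi] at hy
    rw [(hd y).deriv]
    have h1 : 0 ≤ Real.tanh y := tanh_nonneg' hy.le
    have h2 : Real.tanh y ≤ Real.tanh (l * y) := tanh_mono (by nlinarith)
    have h3 : Real.tanh y ^ 2 ≤ Real.tanh (l * y) ^ 2 := pow_le_pow_left₀ h1 h2 2
    have h4 : 2 * Real.tanh y ^ 2 ≤ l ^ 2 * Real.tanh (l * y) ^ 2 :=
      mul_le_mul hl2 h3 (sq_nonneg _) (sq_nonneg _)
    nlinarith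
  have h := hm (Set.mem_Ici.2 le_rfl) (Set.mem_Ici.2 hx) hx
  simp only [mul_zero, Real.tanh_zero, add_zero, sub_self] at h
  linarith

theorem t_TANH : St_TANH := by
  intro s l x hs hl hls hx
  have hs' : 0 < 1 / s := by positivity
  have e : x / s = 1 / s * x := by ring
  rw [e]
  rcases le_total 2 (l ^ 2) with h | h
  · exact big (1 / s) l x (by nlinarith) h hls hx
  · have h0 : √2 ^ 2 = (2 : ℝ) := Real.sq_sqrt (by norm_num)
    have h1 : l ≤ √2 := Real.le_sqrt_of_sq_le h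
    have h2 : (1 : ℝ) ≤ √2 := Real.le_sqrt_of_sq_le (by norm_num)
    have h3 := big (1 / s) (√2) x h2 h0.ge (by linarith) hx
    have h4 : Real.tanh (l * x) ≤ Real.tanh (√2 * x) :=
      tanh_mono (mul_le_mul_of_nonneg_right h1 hx)
    have h5 : 0 ≤ Real.tanh (l * x) := tanh_nonneg' (mul_nonneg hl hx)
    have h6 : l * Real.tanh (l * x) ≤ √2 * Real.tanh (√2 * x) :=
      mul_le_mul h1 h4 h5 (Real.sqrt_nonneg 2)
    linarith

end Pool.Agent.TH359.AT
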